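import Mathlib
import Pool.Agent.H.MP_4617fc_co.Res
import Pool.Agent.H.MP_4617fc_co.Cyc

set_option autoImplicit false

namespace Pool.Agent.Results.MP_ca4ce9_co.Proof

/-- Every finite 2-connected graph (at least 3 vertices, connected, and connected after deleting
any one vertex) that is not a cycle has a mixed resolving set with at most `2c` vertices,
`c = m - n + 1`: it separates vertices from vertices, edges from edges and vertices from edges. -/
theorem result :
    ∀ (V : Type) [Fintype V] [DecidableEq V] (G : SimpleGraph V) [DecidableRel G.Adj],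
      3 ≤ Fintype.card V → G.Connected → (∀ v : V, (G.induce {x | x ≠ v}).Connected) →
      (∀ n : ℕ, IsEmpty (G ≃g SimpleGraph.cycleGraph n)) →
      ∃ S : Finset V,
        (S.card : ℤ) ≤ 2 * ((G.edgeFinset.card : ℤ) - (Fintype.card V : ℤ) + 1) ∧
        (∀ u v : V, u ≠ v → ∃ s ∈ S, G.dist s u ≠ G.dist s v) ∧
        (∀ a b c d : V, G.Adj a b → G.Adj c d → s(a, b) ≠ s(c, d) →
          ∃ s ∈ S, min (G.dist s a) (G.dist s b) ≠ min (G.dist s c) (G.dist s d)) ∧
        (∀ x a b : V, G.Adj a b →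
          ∃ s ∈ S, G.dist s x ≠ min (G.dist s a) (G.dist s b)) := by
  intro V _ _ G _ h0 hc hv hn
  have h2 := Pool.Agent.H.MP_4617fc_co.two_le_degree G h0 hv
  obtain ⟨v, h3⟩ := Pool.Agent.H.MP_4617fc_co.three_of_not_cycle G hc h2 hn
  obtain ⟨S, a1, a2, a3, a4⟩ := Pool.Agent.H.MP_4617fc_co.regime3 hc
    (Pool.Agent.H.MP_4617fc_co.core_of_degree h2) (Pool.Agent.H.MP_4617fc_co.three_of_degree h3)
  refine ⟨S, by omega, fun u w h => ?_, fun a b c d h1 h4 h5 => ?_, fun x a b h => ?_⟩
  · obtain ⟨s, hs, h'⟩ := a2 u w h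
    exact ⟨s, hs, by simpa only [G.dist_comm (u := s)] using h'⟩
  · obtain ⟨s, hs, h'⟩ := a3 a b c d h1 h4 h5
    exact ⟨s, hs, by simpa only [G.dist_comm (u := s)] using h'⟩
  · obtain ⟨s, hs, h'⟩ := a4 x a b h
    exact ⟨s, hs, by simpa only [G.dist_comm (u := s)] using h'⟩

end Pool.Agent.Results.MP_ca4ce9_co.Proof
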